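import Pool.Agent.J6H46.G.Defs

/-!
# First-passage percolation with general weights: basic lemmas, and `S_ND`
-/

set_option autoImplicit false

open MeasureTheory ProbabilityTheory Filter Topology
open scoped ENNReal

namespace Pool.Agent.J6H70.G

open Pool.Agent.J6H99.FPP Pool.Agent.J6H46.G

variable {e : ℕ}

lemma cst_nil (ω : Om e) (x : V e) :
    cst ω (SimpleGraph.Walk.nil : (lat e).Walk x x) = 0 := by simp [cst]

lemma cst_cons (ω : Om e) {x y z : V e} (h : (lat e).Adj x y) (p : (lat e).Walk y z) :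
    cst ω (SimpleGraph.Walk.cons h p) = max (ω s(x, y)) 0 + cst ω p := by
  simp [cst]

lemma cst_append (ω : Om e) {x y z : V e} (p : (lat e).Walk x y) (p' : (lat e).Walk y z) :
    cst ω (p.append p') = cst ω p + cst ω p' := by
  simp [cst, SimpleGraph.Walk.edges_append]

lemma cst_nonneg (ω : Om e) {x y : V e} (p : (lat e).Walk x y) : 0 ≤ cst ω p := by
  unfold cst
  apply List.sum_nonneg
  intro t ht
  obtain ⟨s, _, rfl⟩ := List.mem_map.1 ht
  exact le_max_right _ _

lemma cst_ge {μ : ℝ} {ω : Om e} (h : ∀ s : Sym2 (V e), μ ≤ ω s) {x y : V e}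
    (p : (lat e).Walk x y) : μ * p.length ≤ cst ω p := by
  induction p with
  | nil => simp [cst_nil]
  | @cons x y z hxy p ih =>
    rw [cst_cons, SimpleGraph.Walk.length_cons]
    push_cast
    have h1 := h s(x, y)
    have h2 := le_max_left (ω s(x, y)) 0
    linarith

lemma measurable_cst_MS {x y : V e} (p : (lat e).Walk x y) {A : Set (Sym2 (V e))}
    (hp : Uses p A) : Measurable[MS A] (fun ω : Om e => cst ω p) := by
  have h : ∀ L : List (Sym2 (V e)), (∀ s ∈ L, s ∈ A) →
      Measurable[MS A] (fun ω : Om e => (L.map fun s => max (ω s) 0).sum) := by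
    intro L
    induction L with
    | nil =>
      intro _
      simp only [List.map_nil, List.sum_nil]
      exact @measurable_const _ _ _ (MS A) _
    | cons s L ih =>
      intro hL
      simp only [List.map_cons, List.sum_cons]
      refine Measurable.add ?_ (ih fun s' hs' => hL s' (List.mem_cons_of_mem _ hs'))
      exact (measurable_id.max measurable_const).comp
        (measurable_eval (hL s (List.mem_cons_self ..)))
  exact h p.edges hp

lemma measurable_cst {x y : V e} (p : (lat e).Walk x y) :
    Measurable (fun ω : Om e => cst ω p) :=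
  (measurable_cst_MS p (A := Set.univ) (fun _ _ => Set.mem_univ _)).mono (MS_le _) le_rfl

lemma measurable_XD (B C : ℝ) (A R : ℤ) (x y : V e) :
    Measurable (fun ω : Om e => XD B C ω A R x y) := by
  unfold XD
  refine Measurable.iInf fun v => Measurable.iInf fun _ => Measurable.iInf fun v' =>
    Measurable.iInf fun p => Measurable.iInf fun _ => ?_
  exact ENNReal.measurable_ofReal.comp
    ((measurable_const.add (measurable_cst p)).add measurable_const)

lemma TT_nonneg (ω : Om e) (x y : V e) : 0 ≤ TT ω x y := le_ciInf fun p => cst_nonneg ω p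

lemma n1_one_smul (n : ℕ) : n1 (((n : ℤ) • one : V e) - 0) = ((e : ℤ) + 2) * n := by
  unfold n1 one
  simp [mul_comm]

lemma ns_one : ns (one : V e) = 1 := by
  unfold ns one
  have : (fun _ : Fin (e + 2) => (((1 : ℤ) : ℝ))) = (1 : Fin (e + 2) → ℝ) := by
    funext i; simp
  rw [this]
  exact norm_one

theorem nd : S_ND := by
  intro e F _ μ hμ hC
  by_contra hcon
  push Not at hcon
  have h0 : F (Set.Iio μ) = 0 := by
    have h1 : Set.Iio μ ⊆ ⋃ n : ℕ, Set.Iic (μ - μ / ((n : ℝ) + 1)) := by
      intro t ht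
      rw [Set.mem_iUnion]
      have ht' : 0 < μ - t := sub_pos.2 ht
      obtain ⟨n, hn⟩ := exists_nat_ge (μ / (μ - t))
      refine ⟨n, ?_⟩
      rw [Set.mem_Iic]
      have h2 : μ / ((n : ℝ) + 1) ≤ μ - t := by
        rw [div_le_iff₀ (by positivity)]
        rw [div_le_iff₀ ht'] at hn
        nlinarith
      linarith
    refine measure_mono_null h1 (measure_iUnion_null fun n => ?_)
    have h2 : (0 : ℝ) < (n : ℝ) + 1 := by positivity
    have h3 : μ / ((n : ℝ) + 1) ≤ μ := div_le_self hμ.le (by linarith [(Nat.cast_nonneg n : (0 : ℝ) ≤ n)])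
    have h4 : 0 < μ / ((n : ℝ) + 1) := by positivity
    exact le_antisymm (hcon _ (by linarith) (by linarith)) bot_le
  have h1 : ∀ᵐ ω ∂(PM e F), ∀ s : Sym2 (V e), μ ≤ ω s := by
    rw [ae_all_iff]
    intro s
    have hmp : MeasurePreserving (fun ω : Om e => ω s) (PM e F) F :=
      measurePreserving_eval_infinitePi (fun _ : Sym2 (V e) => F) s
    have h2 := hmp.measure_preimage (measurableSet_Iio (a := μ)).nullMeasurableSet
    rw [h0] at h2
    rw [ae_iff]
    refine measure_mono_null ?_ h2
    intro ω hω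
    simpa using hω
  have h2 : ∀ n : ℕ, 1 ≤ n →
      PM e F {ω : Om e | μ / 2 < |TT ω 0 ((n : ℤ) • one) / n - μ * ns (one : V e)|} = 1 := by
    intro n hn
    have h3 : ∀ᵐ ω ∂(PM e F),
        ω ∈ {ω : Om e | μ / 2 < |TT ω 0 ((n : ℤ) • one) / n - μ * ns (one : V e)|} := by
      filter_upwards [h1] with ω hω
      have h4 : μ * (((e : ℝ) + 2) * n) ≤ TT ω 0 ((n : ℤ) • one) := by
        refine le_ciInf fun p => ?_
        have h5 := n1_le_length p
        rw [n1_one_smul] at h5
        have h6 : ((e : ℝ) + 2) * n ≤ p.length := by exact_mod_cast h5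
        exact (mul_le_mul_of_nonneg_left h6 hμ.le).trans (cst_ge hω p)
      have hn' : (0 : ℝ) < n := by exact_mod_cast hn
      have h7 : μ * ((e : ℝ) + 2) ≤ TT ω 0 ((n : ℤ) • one) / n := by
        rw [le_div_iff₀ hn']; linarith
      show μ / 2 < _
      rw [ns_one, mul_one]
      have h8 : μ ≤ TT ω 0 ((n : ℤ) • one) / n - μ := by
        have : (0 : ℝ) ≤ μ * e := by positivity
        linarith
      rw [abs_of_nonneg (by linarith)]
      linarith
    have h9 := ae_iff.1 h3
    refine le_antisymm prob_le_one ?_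
    calc (1 : ℝ≥0∞) = PM e F Set.univ := measure_univ.symm
      _ ≤ PM e F ({ω : Om e | μ / 2 < |TT ω 0 ((n : ℤ) • one) / n - μ * ns (one : V e)|} ∪
            {ω | ¬ ω ∈ {ω : Om e | μ / 2 < |TT ω 0 ((n : ℤ) • one) / n - μ * ns (one : V e)|}}) := by
          refine measure_mono fun ω _ => ?_
          by_cases h : ω ∈ {ω : Om e | μ / 2 < |TT ω 0 ((n : ℤ) • one) / n - μ * ns (one : V e)|}
          · exact Or.inl h
          · exact Or.inr h
      _ ≤ _ := measure_union_le _ _
      _ = _ := by rw [h9, add_zero]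
  have h3 := hC one (μ / 2) (by positivity)
  have h4 : Tendsto (fun n : ℕ =>
      PM e F {ω : Om e | μ / 2 < |TT ω 0 ((n : ℤ) • one) / n - μ * ns (one : V e)|}) atTop
      (𝓝 1) := by
    refine tendsto_const_nhds.congr' ?_
    filter_upwards [eventually_ge_atTop 1] with n hn
    exact (h2 n hn).symm
  exact zero_ne_one (tendsto_nhds_unique h3 h4)

end Pool.Agent.J6H70.G
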