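import Pool.Agent.J6H70.G.Start5

/-!
# `S_START`

If the tube events had quantiles below `c2 log L` at all scales up to `L`, then about
`M = C a^{-m}` points of a hyperplane could be reached from `0` with an excess of order `log L`;
from one of them starts a run of `m = β log L` cheap edges, and the point to hyperplane passage
time would be too small.
-/

set_option autoImplicit false

open MeasureTheory ProbabilityTheory Filter Topology
open scoped ENNReal

namespace Pool.Agent.J6H70.G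

open Pool.Agent.J6H99.FPP Pool.Agent.J6H46.G

variable {e : ℕ}

lemma main_real (hPEN0 : S_PEN0) (hPEN1 : S_PEN1) (hDOM : S_DOM) (hFLAT : S_FLAT) (F : Measure ℝ)
    [IsProbabilityMeasure F] {B C b a μ : ℝ} (hb : F (Set.Ioi b) ≤ q0 e) (hab : a ≤ b)
    (ha : 0 ≤ a) (hC : C1I e B b C) (hL : LBD e F μ B)
    {K m M : ℕ} {X : ℝ} (hX : 0 ≤ X) (hC0 : 0 ≤ C)
    (hU : ∀ (l : ℕ), l ≤ M → ∀ (t : ℤ), (t = 1 ∨ t = -1) →
      ∀ (x : V e) (A : Set (Sym2 (V e))) (W : Set (Om e)), MeasurableSet[MS A] W →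
      (∀ s ∈ A, ∀ v ∈ s, x 0 + l + 2 * K + 2 ≤ v 0) →
      ∫⁻ ω in W, (XD B C ω (x 0) (x 0 + l + 2 * K + 2) x
        (x + (2 * (K : ℤ) + 2) • u 0 + (l : ℤ) • dir t) - ENNReal.ofReal (μ * l)) ∂(PM e F) ≤
        PM e F W * ENNReal.ofReal X) (hμ : 0 < μ) (hμB : μ ≤ B) :
    (μ - a) * m ≤ 2 * X + C * m * (1 - F.real (Set.Iic a) ^ m) ^ M +
      24 * C * (1 + M * F.real (Set.Iic a) ^ m) := by
  have h1 := main_enn hPEN0 hPEN1 hDOM hFLAT F hb hab ha hC hL (m := m) hU hμ hμB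
  set α := F.real (Set.Iic a) with hα
  have hα0 : 0 ≤ α := measureReal_nonneg
  have hα1 : α ≤ 1 := measureReal_le_one
  have hαm0 : 0 ≤ α ^ m := pow_nonneg hα0 m
  have hαm1 : α ^ m ≤ 1 := pow_le_one₀ hα0 hα1
  have hFα : F (Set.Iic a) = ENNReal.ofReal α := by
    rw [hα, measureReal_def, ENNReal.ofReal_toReal (measure_ne_top _ _)]
  have h2 : ENNReal.ofReal μ * ((M + 4 * K + 4 + m : ℕ) : ℝ≥0∞) =
      ENNReal.ofReal (μ * (M + 4 * K + 4 + m)) := by
    rw [ENNReal.ofReal_mul hμ.le]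
    congr 1
    rw [← ENNReal.ofReal_natCast]
    push_cast
    rfl
  have h3 : 2 * ENNReal.ofReal X + ENNReal.ofReal (μ * M) +
      ((1 - F (Set.Iic a) ^ m) ^ M * ENNReal.ofReal (C * m) + ENNReal.ofReal (a * m)) +
      ENNReal.ofReal C * (24 * (1 + M * F (Set.Iic a) ^ m)) =
      ENNReal.ofReal (2 * X + μ * M + ((1 - α ^ m) ^ M * (C * m) + a * m) +
        C * (24 * (1 + M * α ^ m))) := by
    have e1 : (2 : ℝ≥0∞) * ENNReal.ofReal X = ENNReal.ofReal (2 * X) := by
      rw [ENNReal.ofReal_mul (by norm_num)]; norm_num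
    have e2 : F (Set.Iic a) ^ m = ENNReal.ofReal (α ^ m) := by
      rw [hFα, ENNReal.ofReal_pow hα0]
    have e3 : (1 - F (Set.Iic a) ^ m) ^ M = ENNReal.ofReal ((1 - α ^ m) ^ M) := by
      rw [e2, ENNReal.ofReal_pow (p := 1 - α ^ m) (by linarith), ENNReal.ofReal_sub _ hαm0,
        ENNReal.ofReal_one]
    have e4 : (24 : ℝ≥0∞) * (1 + M * F (Set.Iic a) ^ m) =
        ENNReal.ofReal (24 * (1 + M * α ^ m)) := by
      rw [e2, ENNReal.ofReal_mul (by norm_num), ENNReal.ofReal_add (by norm_num) (by positivity),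
        ENNReal.ofReal_mul (by positivity), ENNReal.ofReal_natCast, ENNReal.ofReal_one]
      norm_num
    have h1m : 0 ≤ (1 - α ^ m) ^ M := pow_nonneg (by linarith) M
    rw [e1, e3, e4, ← ENNReal.ofReal_mul h1m, ← ENNReal.ofReal_mul hC0,
      ← ENNReal.ofReal_add (by positivity) (by positivity),
      ← ENNReal.ofReal_add (by positivity) (by positivity),
      ← ENNReal.ofReal_add (by positivity) (by positivity),
      ← ENNReal.ofReal_add (by positivity) (by positivity)]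
  rw [h2, h3] at h1
  have h1m : 0 ≤ (1 - α ^ m) ^ M := pow_nonneg (by linarith) M
  have h4 := (ENNReal.ofReal_le_ofReal_iff (by positivity)).1 h1
  have h5 : (0 : ℝ) ≤ μ * (4 * K + 4) := by positivity
  nlinarith

theorem start (hUP : S_UP) (hC1 : S_C1) (hPEN0 : S_PEN0) (hPEN1 : S_PEN1) (hDOM : S_DOM)
    (hFLAT : S_FLAT) : S_START := by
  intro e F _ c hL a ha haμ hF ε hε hε2
  have he : (0 : ℝ) ≤ e := Nat.cast_nonneg e
  obtain ⟨C, hBC, hC⟩ := hC1 e F c ((e : ℝ) + 2) (by linarith)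
  have hB1 := c.hB1
  have hC0 : 0 ≤ C := by linarith
  have hμ := c.hμ
  have hμB : c.μ ≤ c.B := by
    have := c.hBμ
    nlinarith [mul_nonneg he hμ.le]
  obtain ⟨C', hC', hU⟩ := hUP e c.μ c.B C hμ.le (by linarith) hC0
  set α := F.real (Set.Iic a) with hα
  have hα0 : 0 < α := by
    rw [hα, measureReal_def]
    exact ENNReal.toReal_pos hF.ne' (measure_ne_top _ _)
  have hα1 : α ≤ 1 := measureReal_le_one
  set d := c.μ - a with hd
  have hd0 : 0 < d := sub_pos.2 haμ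
  have main : ∀ K m M : ℕ, (∀ l ≤ M, ε ≤ (PM e F).real (KG c.μ l K)) →
      d * m ≤ 2 * (C' * (K + 1) / ε ^ 2) + C * m * (1 - α ^ m) ^ M +
        24 * C * (1 + M * α ^ m) := by
    intro K m M hK
    refine main_real hPEN0 hPEN1 hDOM hFLAT F c.hq (haμ.le.trans c.hμb) ha
      (fun ω A h R x q => hC ω A h R x q) hL (K := K) (by positivity) hC0 ?_ hμ hμB
    intro l hl t ht x A W hW hA
    have h1 := hU F ε hε l K 0 t ht (hK l hl) x A W hW fun s hs => Or.inr (Or.inl (hA s hs))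
    simpa using h1
  -- parameters
  obtain ⟨C5, hC5, hC5'⟩ : ∃ C5 : ℝ, 0 ≤ C5 ∧ C * Real.exp (-C5) ≤ d / 2 := by
    have h1 : Tendsto (fun t : ℝ => C * Real.exp (-t)) atTop (𝓝 (C * 0)) :=
      Real.tendsto_exp_neg_atTop_nhds_zero.const_mul C
    rw [mul_zero] at h1
    obtain ⟨t, ht1, ht2⟩ := ((h1.eventually (gt_mem_nhds (half_pos hd0))).and
      (eventually_ge_atTop 0)).exists
    exact ⟨t, ht2, ht1.le⟩
  set lam := -Real.log α with hlam
  have hlam0 : 0 ≤ lam := by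
    rw [hlam]; linarith [Real.log_nonpos hα0.le hα1]
  set β := 1 / (2 * (lam + 1)) with hβ
  have hβ0 : 0 < β := by positivity
  have hβlam : lam * β ≤ 1 / 2 := by
    rw [hβ, mul_one_div, div_le_div_iff₀ (by positivity) (by norm_num)]
    linarith
  set D := d / 2 + 2 * C' / ε ^ 2 + 24 * C * (C5 + 2) with hD
  refine ⟨d * β * ε ^ 2 / (8 * C' + 8), by positivity, ?_⟩
  set c2 := d * β * ε ^ 2 / (8 * C' + 8) with hc2
  have hc20 : 0 < c2 := by positivity
  have hev : ∀ᶠ L : ℕ in atTop, 4 * D / (d * β) < Real.log L ∧ (C5 + 1) ^ 2 ≤ (L : ℝ) :=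
    ((Real.tendsto_log_atTop.comp tendsto_natCast_atTop_atTop).eventually_gt_atTop _).and
      (tendsto_natCast_atTop_atTop.eventually_ge_atTop _)
  obtain ⟨L0, hL0⟩ := eventually_atTop.1 hev
  refine ⟨L0, fun L hLL => ?_⟩
  obtain ⟨hlog, hL5⟩ := hL0 L hLL
  by_contra hcon
  push Not at hcon
  have hD0 : 0 ≤ D := by positivity
  have hlog0 : 0 < Real.log L := lt_of_le_of_lt (by positivity) hlog
  have hLpos : (0 : ℝ) < L := by nlinarith
  set K := ⌊c2 * Real.log L⌋₊ with hK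
  set m := ⌊β * Real.log L⌋₊ with hm
  have hKle : (K : ℝ) ≤ c2 * Real.log L := Nat.floor_le (by positivity)
  have hmle : (m : ℝ) ≤ β * Real.log L := Nat.floor_le (by positivity)
  have hmge : β * Real.log L - 1 ≤ m := by
    have := Nat.lt_floor_add_one (β * Real.log L)
    linarith
  set τ := α ^ m with hτ
  have hτ0 : 0 < τ := pow_pos hα0 m
  have hτ1 : τ ≤ 1 := pow_le_one₀ hα0.le hα1
  set M := ⌈C5 / τ⌉₊ with hM
  have hMge : C5 / τ ≤ M := Nat.le_ceil _
  have hMlt : (M : ℝ) < C5 / τ + 1 := Nat.ceil_lt_add_one (by positivity)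
  have hMτ1 : C5 ≤ M * τ := by
    rw [div_le_iff₀ hτ0] at hMge
    exact hMge
  have hMτ2 : M * τ ≤ C5 + 1 := by
    have h1 : M * τ ≤ (C5 / τ + 1) * τ := by gcongr
    have h2 : (C5 / τ + 1) * τ = C5 + τ := by field_simp
    linarith
  have hτL : (1 / τ) ^ 2 ≤ L := by
    have h1 : τ = Real.exp (-(lam * m)) := by
      rw [hτ, hlam, neg_mul, neg_neg, mul_comm, Real.exp_nat_mul, Real.exp_log hα0]
    rw [h1, one_div, ← Real.exp_neg, neg_neg, ← Real.exp_nat_mul]
    calc Real.exp ((2 : ℕ) * (lam * m)) ≤ Real.exp (Real.log L) := by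
          apply Real.exp_le_exp.2
          push_cast
          have h2 : lam * m ≤ lam * (β * Real.log L) := by gcongr
          nlinarith
      _ = L := Real.exp_log hLpos
  have hτge : 1 ≤ 1 / τ := by
    rw [le_div_iff₀ hτ0]; linarith
  have hML : M ≤ L := by
    have h1 : ((C5 + 1) * (1 / τ)) ^ 2 ≤ (L : ℝ) ^ 2 := by
      rw [mul_pow, sq (L : ℝ)]
      exact mul_le_mul hL5 hτL (by positivity) hLpos.le
    have h2 : (C5 + 1) * (1 / τ) ≤ L := (pow_le_pow_iff_left₀ (by positivity) hLpos.le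
      (by norm_num)).1 h1
    have h3 : (M : ℝ) < (C5 + 1) * (1 / τ) := by
      rw [div_eq_mul_one_div] at hMlt
      linarith
    exact_mod_cast (h3.le.trans h2)
  have hKG : ∀ l ≤ M, ε ≤ (PM e F).real (KG c.μ l K) := by
    intro l hl
    refine KG_of_kk_le F hμ.le hε2 ?_
    exact Nat.le_floor (hcon l (hl.trans hML)).le
  have h1 := main K m M hKG
  have h2 : (1 - τ) ^ M ≤ Real.exp (-C5) := by
    calc (1 - τ) ^ M ≤ (Real.exp (-τ)) ^ M := by
          have := Real.one_sub_le_exp_neg τ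
          gcongr
      _ = Real.exp (M * (-τ)) := (Real.exp_nat_mul _ _).symm
      _ ≤ _ := Real.exp_le_exp.2 (by linarith)
  have h3 : C * m * (1 - τ) ^ M ≤ m * (d / 2) := by
    calc C * m * (1 - τ) ^ M ≤ C * m * Real.exp (-C5) := by gcongr
      _ = m * (C * Real.exp (-C5)) := by ring
      _ ≤ _ := by gcongr
  have h4 : 24 * C * (1 + M * τ) ≤ 24 * C * (C5 + 2) := by
    have : 1 + M * τ ≤ C5 + 2 := by linarith
    gcongr
  have h5 : 2 * (C' * (K + 1) / ε ^ 2) ≤ d * β / 4 * Real.log L + 2 * C' / ε ^ 2 := by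
    have h6 : 2 * (C' * (K + 1) / ε ^ 2) = 2 * C' / ε ^ 2 * K + 2 * C' / ε ^ 2 := by ring
    have h7 : 2 * C' / ε ^ 2 * K ≤ 2 * C' / ε ^ 2 * (c2 * Real.log L) := by gcongr
    have h8 : 2 * C' / ε ^ 2 * c2 ≤ d * β / 4 := by
      have h9 : 2 * C' / ε ^ 2 * c2 = d * β * (2 * C' / (8 * C' + 8)) := by
        rw [hc2]; field_simp
      rw [h9]
      have h10 : 2 * C' / (8 * C' + 8) ≤ 1 / 4 := by
        rw [div_le_div_iff₀ (by positivity) (by norm_num)]
        linarith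
      calc d * β * (2 * C' / (8 * C' + 8)) ≤ d * β * (1 / 4) := by gcongr
        _ = _ := by ring
    have h11 : 2 * C' / ε ^ 2 * (c2 * Real.log L) ≤ d * β / 4 * Real.log L := by
      rw [← mul_assoc]
      gcongr
    linarith
  have h6 : d / 2 * (β * Real.log L - 1) ≤ d / 2 * m := by gcongr
  have h7 : d * β / 4 * Real.log L ≤ D := by
    rw [hD]
    linarith
  have h8 : 4 * D < Real.log L * (d * β) := (div_lt_iff₀ (by positivity)).1 hlog
  linarith

end Pool.Agent.J6H70.G
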