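import Pool.Agent.J6H70.G.Nd
import Pool.Agent.J6H44.FPP.Start

/-!
# `S_START`, part 1: quantiles, runs of cheap edges
-/

set_option autoImplicit false

open MeasureTheory ProbabilityTheory Filter Topology
open scoped ENNReal

namespace Pool.Agent.J6H70.G

open Pool.Agent.J6H99.FPP Pool.Agent.J6H46.G
open Pool.Agent.J6H44.FPP (ln mem_ln ln_sub_Slab ln_disjoint last_ne dir_zero dir_ne)

variable {e : ℕ}

/-! ### the quantile -/

lemma EvG_mono {A B : Set (Sym2 (V e))} (hAB : A ⊆ B) (x y : V e) {t t' : ℝ} (h : t ≤ t') :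
    EvG A x y t ⊆ EvG B x y t' := fun _ ⟨p, hp, hc⟩ => ⟨p, hp.mono hAB, hc.trans h⟩

lemma Reg_mono (l : ℕ) {w w' : ℕ} (h : w ≤ w') : (Reg l w : Set (V e)) ⊆ Reg l w' := by
  rintro v ⟨h1, h2, h3⟩
  exact ⟨h1, h2, fun i j => (h3 i j).trans (by exact_mod_cast h)⟩

lemma EIn_mono {R R' : Set (V e)} (h : R ⊆ R') : EIn R ⊆ EIn R' := fun _ hs v hv => h (hs v hv)

lemma KG_mono (μ : ℝ) (l : ℕ) {w w' : ℕ} (h : w ≤ w') :
    (KG μ l w : Set (Om e)) ⊆ KG μ l w' := by
  rintro ω ⟨x, y, hx, hy, hx1, hy1, hω⟩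
  have hz : (w : ℤ) ≤ w' := by exact_mod_cast h
  have hr : (w : ℝ) ≤ w' := by exact_mod_cast h
  exact ⟨x, y, Reg_mono l h hx, Reg_mono l h hy, hx1.trans hz, hy1.trans hz,
    EvG_mono (EIn_mono (Reg_mono l h)) x y (by linarith) hω⟩

lemma S_le_n1 (v : V e) : S v ≤ n1 v := Finset.sum_le_sum fun _ _ => le_abs_self _

lemma KG_exhaust {μ : ℝ} (hμ : 0 ≤ μ) (l : ℕ) : ⋃ w, (KG μ l w : Set (Om e)) = Set.univ := by
  rw [Set.eq_univ_iff_forall]
  intro ω
  rw [Set.mem_iUnion]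
  obtain ⟨p, hp⟩ := exists_walk_len (0 : V e) ((l : ℤ) • one)
  rw [n1_one_smul] at hp
  obtain ⟨n, hn⟩ := exists_nat_ge (cst ω p)
  set w := max n (2 * (e + 2) * l) with hw
  have hwn : (cst ω p) ≤ w := hn.trans (by exact_mod_cast le_max_left _ _)
  have hwl : (2 * ((e : ℤ) + 2) * l) ≤ w := by exact_mod_cast le_max_right n (2 * (e + 2) * l)
  have hS : S ((l : ℤ) • one : V e) = ((e : ℤ) + 2) * l := by
    rw [S_smul, S_one]; ring
  have key : ∀ v ∈ p.support, v ∈ Reg l w := by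
    classical
    intro v hv
    have h1 := n1_le_length (p.takeUntil v hv)
    have h2 := n1_le_length (p.dropUntil v hv)
    have h3 : (p.takeUntil v hv).length + (p.dropUntil v hv).length = p.length := by
      rw [← SimpleGraph.Walk.length_append, SimpleGraph.Walk.take_spec]
    have h4 : n1 v + n1 ((l : ℤ) • one - v) ≤ ((e : ℤ) + 2) * l := by
      rw [sub_zero] at h1
      have : (((p.takeUntil v hv).length + (p.dropUntil v hv).length : ℕ) : ℤ) = p.length := by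
        exact_mod_cast h3
      push_cast at this
      linarith
    have h5 := S_le_n1 v
    have h6 := S_le_n1 ((l : ℤ) • one - v)
    rw [S_sub, hS] at h6
    have h7 := n1_nonneg v
    have h8 := n1_nonneg ((l : ℤ) • one - v)
    refine ⟨by linarith, by linarith, fun i j => ?_⟩
    have h9 := coord_le_n1 v i
    have h10 := coord_le_n1 v j
    have h11 := le_abs_self (v i)
    have h12 := neg_abs_le (v j)
    have h13 : (0 : ℤ) ≤ ((e : ℤ) + 2) * l := by positivity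
    linarith
  refine ⟨w, 0, (l : ℤ) • one, key _ p.start_mem_support, key _ p.end_mem_support, ?_, ?_,
    p, edges_EIn key, ?_⟩
  · rw [n1_zero]; positivity
  · rw [sub_self, n1_zero]; positivity
  · have : 0 ≤ μ * l := by positivity
    linarith

lemma exists_KG (F : Measure ℝ) [IsProbabilityMeasure F] {μ : ℝ} (hμ : 0 ≤ μ) {ε : ℝ}
    (hε : ε ≤ 1 / 2) (l : ℕ) : ∃ w : ℕ, ε ≤ (PM e F).real (KG μ l w) := by
  have h1 : Tendsto (fun w : ℕ => PM e F (KG μ l w)) atTop (𝓝 1) := by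
    have h2 := tendsto_measure_iUnion_atTop (μ := PM e F) (s := fun w : ℕ => (KG μ l w : Set (Om e)))
      (fun w w' h => KG_mono μ l h)
    rw [KG_exhaust hμ, measure_univ] at h2
    exact h2
  have h3 := h1.eventually (lt_mem_nhds (show ENNReal.ofReal (1 / 2) < 1 by
    rw [← ENNReal.ofReal_one]
    exact (ENNReal.ofReal_lt_ofReal_iff (by norm_num)).2 (by norm_num)))
  obtain ⟨w, hw⟩ := h3.exists
  refine ⟨w, hε.trans ?_⟩
  have h4 := ENNReal.toReal_mono (measure_ne_top (PM e F) (KG μ l w)) hw.le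
  rw [ENNReal.toReal_ofReal (by norm_num)] at h4
  exact h4

lemma kk_spec (F : Measure ℝ) [IsProbabilityMeasure F] {μ : ℝ} (hμ : 0 ≤ μ) {ε : ℝ}
    (hε : ε ≤ 1 / 2) (l : ℕ) : ε ≤ (PM e F).real (KG μ l (kk e F μ ε l)) :=
  Nat.sInf_mem (s := {w : ℕ | ε ≤ (PM e F).real (KG μ l w)}) (exists_KG F hμ hε l)

lemma KG_of_kk_le (F : Measure ℝ) [IsProbabilityMeasure F] {μ : ℝ} (hμ : 0 ≤ μ) {ε : ℝ}
    (hε : ε ≤ 1 / 2) {l K : ℕ} (h : kk e F μ ε l ≤ K) : ε ≤ (PM e F).real (KG μ l K) :=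
  (kk_spec F hμ hε l).trans (measureReal_mono (KG_mono μ l h))

/-! ### runs of cheap edges -/

/-- all edges of the run have weight at most `a` -/
def Th (a : ℝ) (y : V e) (m : ℕ) : Set (Om e) := {ω : Om e | ∀ s ∈ ln y m, ω s ≤ a}

lemma Th_eq_pi (a : ℝ) (y : V e) (m : ℕ) :
    (Th a y m : Set (Om e)) = Set.pi (ln y m : Set (Sym2 (V e))) fun _ => Set.Iic a := by
  ext ω; simp [Th, Set.mem_pi]

lemma Th_meas_MS (a : ℝ) (y : V e) (m : ℕ) :
    MeasurableSet[MS (ln y m : Set (Sym2 (V e)))] (Th a y m : Set (Om e)) := by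
  have h : (Th a y m : Set (Om e)) =
      ⋂ s ∈ (ln y m : Set (Sym2 (V e))), {ω : Om e | ω s ≤ a} := by
    ext ω; simp [Th]
  rw [h]
  refine @MeasurableSet.biInter _ _ (MS _) _ _ (Finset.countable_toSet _) fun s hs => ?_
  exact (measurable_eval hs) measurableSet_Iic

lemma ln_card (y : V e) (m : ℕ) : (ln y m).card = m := by
  unfold Pool.Agent.J6H44.FPP.ln
  rw [Finset.card_image_of_injOn, Finset.card_range]
  intro i _ j _ hij
  have e0 : (u 0 : V e) 0 = 1 := by simp [u]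
  have hij' : s(y + (i : ℤ) • u 0, y + ((i : ℤ) + 1) • u 0) =
      s(y + (j : ℤ) • u 0, y + ((j : ℤ) + 1) • u 0) := hij
  rw [Sym2.eq_iff] at hij'
  rcases hij' with ⟨h1, _⟩ | ⟨h1, h2⟩
  · have := congrFun h1 0
    simp only [Pi.add_apply, Pi.smul_apply, e0, smul_eq_mul, mul_one] at this
    omega
  · have h3 := congrFun h1 0
    have h4 := congrFun h2 0
    simp only [Pi.add_apply, Pi.smul_apply, e0, smul_eq_mul, mul_one] at h3 h4
    omega

lemma Th_prob (F : Measure ℝ) [IsProbabilityMeasure F] (a : ℝ) (y : V e) (m : ℕ) :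
    PM e F (Th a y m) = F (Set.Iic a) ^ m := by
  rw [Th_eq_pi]
  unfold PM
  rw [Measure.infinitePi_pi (μ := fun _ : Sym2 (V e) => F) (s := ln y m)
    (t := fun _ => Set.Iic a) (fun _ _ => measurableSet_Iic), Finset.prod_const, ln_card]

/-- the run as a walk -/
lemma run_walk {a : ℝ} (ha : 0 ≤ a) {y : V e} {m : ℕ} {ω : Om e} (h : ω ∈ Th a y m) :
    ω ∈ EvG (ln y m : Set (Sym2 (V e))) y (y + (m : ℤ) • u 0) (a * m) := by
  have key : ∀ n : ℕ, n ≤ m →
      ω ∈ EvG (ln y m : Set (Sym2 (V e))) y (y + (n : ℤ) • u 0) (a * n) := by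
    intro n
    induction n with
    | zero =>
      intro _
      simp only [Nat.cast_zero, zero_smul, add_zero, mul_zero]
      exact ⟨SimpleGraph.Walk.nil, Uses.nil _ _, by rw [cst_nil]⟩
    | succ n ih =>
      intro hn
      obtain ⟨p, hp, hc⟩ := ih (by omega)
      have hadj : (lat e).Adj (y + (n : ℤ) • u 0) (y + ((n + 1 : ℕ) : ℤ) • u 0) := by
        have := adj_add_u (y + (n : ℤ) • u 0) 0
        rwa [show y + (n : ℤ) • u 0 + u 0 = y + ((n + 1 : ℕ) : ℤ) • u 0 by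
          push_cast; rw [add_smul, one_smul, add_assoc]] at this
      have hmem : s(y + (n : ℤ) • u 0, y + ((n + 1 : ℕ) : ℤ) • u 0) ∈
          (ln y m : Set (Sym2 (V e))) := by
        rw [mem_ln]
        exact ⟨n, by omega, by push_cast; rfl⟩
      refine ⟨p.append (SimpleGraph.Walk.cons hadj SimpleGraph.Walk.nil), ?_, ?_⟩
      · refine hp.append ?_
        intro s hs
        simp only [SimpleGraph.Walk.edges_cons, SimpleGraph.Walk.edges_nil,
          List.mem_singleton] at hs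
        rw [hs]; exact hmem
      · rw [cst_append, cst_cons, cst_nil, add_zero]
        have h1 : ω s(y + (n : ℤ) • u 0, y + ((n + 1 : ℕ) : ℤ) • u 0) ≤ a := h _ hmem
        have h2 := max_le h1 ha
        push_cast at h2 ⊢
        linarith
  exact key m le_rfl

/-- none of the first `n` runs is good -/
def DN (a : ℝ) (y : ℕ → V e) (m n : ℕ) : Set (Om e) := ⋂ i ∈ Finset.range n, (Th a (y i) m)ᶜ

lemma DN_zero (a : ℝ) (y : ℕ → V e) (m : ℕ) : (DN a y m 0 : Set (Om e)) = Set.univ := by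
  simp [DN]

lemma DN_succ (a : ℝ) (y : ℕ → V e) (m n : ℕ) :
    (DN a y m (n + 1) : Set (Om e)) = DN a y m n ∩ (Th a (y n) m)ᶜ := by
  unfold DN
  rw [Finset.range_add_one, Finset.set_biInter_insert, Set.inter_comm]

lemma mem_DN {a : ℝ} {y : ℕ → V e} {m n : ℕ} {ω : Om e} :
    ω ∈ DN a y m n ↔ ∀ i < n, ω ∉ Th a (y i) m := by
  simp [DN]

lemma DN_meas_MS (a : ℝ) (y : ℕ → V e) (m n : ℕ) :
    MeasurableSet[MS (⋃ i ∈ Finset.range n, (ln (y i) m : Set (Sym2 (V e))))]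
      (DN a y m n : Set (Om e)) := by
  unfold DN
  refine @MeasurableSet.biInter _ _ (MS _) _ _ (Finset.countable_toSet _) fun i hi => ?_
  refine MeasurableSet.compl ?_
  exact MS_mono (Set.subset_iUnion₂ (s := fun i (_ : i ∈ Finset.range n) =>
    (ln (y i) m : Set (Sym2 (V e)))) i hi) _ (Th_meas_MS a (y i) m)

lemma DN_prob (F : Measure ℝ) [IsProbabilityMeasure F] (a : ℝ) (y : ℕ → V e) (m : ℕ)
    (i₀ : Fin (e + 2)) (hi₀ : i₀ ≠ 0) (N : ℕ)
    (hy : ∀ i j : ℕ, i < j → j < N → y i i₀ ≠ y j i₀) :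
    ∀ n : ℕ, n ≤ N → PM e F (DN a y m n) ≤ (1 - F (Set.Iic a) ^ m) ^ n := by
  intro n
  induction n with
  | zero => intro _; rw [DN_zero]; simp
  | succ n ih =>
    intro hn
    rw [DN_succ]
    have hdis : Disjoint (⋃ i ∈ Finset.range n, (ln (y i) m : Set (Sym2 (V e))))
        (ln (y n) m : Set (Sym2 (V e))) := by
      rw [Set.disjoint_iUnion₂_left]
      intro i hi
      exact ln_disjoint i₀ hi₀ (hy i n (Finset.mem_range.1 hi) (by omega)) m
    have h1 := (Indep_iff _ _ _).1 (indep_MS F hdis) _ _ (DN_meas_MS a y m n)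
      (MeasurableSet.compl (Th_meas_MS a (y n) m))
    rw [h1, pow_succ]
    refine mul_le_mul' (ih (by omega)) ?_
    rw [prob_compl_eq_one_sub (MS_le _ _ (Th_meas_MS a (y n) m)), Th_prob]

end Pool.Agent.J6H70.G
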