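import Pool.Agent.J6H70.G.Start1

/-!
# `S_START`, part 2: the strategy
-/

set_option autoImplicit false

open MeasureTheory ProbabilityTheory Filter Topology
open scoped ENNReal

namespace Pool.Agent.J6H70.G

open Pool.Agent.J6H99.FPP Pool.Agent.J6H46.G
open Pool.Agent.J6H44.FPP (ln mem_ln ln_sub_Slab ln_disjoint last_ne dir_zero dir_ne)

variable {e : ℕ}

lemma n1_le_of_coord {x : V e} {k : ℤ} (h : ∀ i, |x i| ≤ k) : n1 x ≤ ((e : ℤ) + 2) * k := by
  unfold n1
  refine (Finset.sum_le_card_nsmul _ _ k (fun i _ => h i)).trans ?_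
  simp

/-- the end point of a tube -/
def te (K : ℕ) (x : V e) (l : ℕ) (t : ℤ) : V e :=
  x + (2 * (K : ℤ) + 2) • u 0 + (l : ℤ) • dir t

lemma te_zero (K : ℕ) (x : V e) (l : ℕ) (t : ℤ) : (te K x l t) 0 = x 0 + l + 2 * K + 2 := by
  unfold te
  simp only [Pi.add_apply, Pi.smul_apply, dir_zero, u, Pi.single_eq_same, smul_eq_mul, mul_one]
  ring

lemma te_ne (K : ℕ) (x : V e) (l : ℕ) (t : ℤ) {i : Fin (e + 2)} (hi : i ≠ 0) :
    (te K x l t) i = x i + l * t := by
  unfold te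
  simp only [Pi.add_apply, Pi.smul_apply, dir_ne _ hi, u, Pi.single_eq_of_ne hi, smul_eq_mul,
    mul_zero, add_zero]

lemma te_n1 (K : ℕ) (x : V e) (l : ℕ) {t : ℤ} (ht : t = 1 ∨ t = -1) :
    n1 (te K x l t - x) ≤ ((e : ℤ) + 2) * (l + 2 * K + 2) := by
  refine n1_le_of_coord fun i => ?_
  rw [Pi.sub_apply]
  by_cases hi : i = 0
  · subst hi
    rw [te_zero, abs_of_nonneg (by omega)]
    omega
  · rw [te_ne K x l t hi, add_sub_cancel_left]
    rcases ht with rfl | rfl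
    · rw [mul_one, abs_of_nonneg (by omega)]; omega
    · rw [mul_neg, mul_one, abs_neg, abs_of_nonneg (by omega)]; omega

/-- passage time through a tube -/
noncomputable def XU (B C : ℝ) (K : ℕ) (x : V e) (l : ℕ) (t : ℤ) (ω : Om e) : ℝ≥0∞ :=
  XD B C ω (x 0) (x 0 + l + 2 * K + 2) x (te K x l t)

lemma measurable_XU (B C : ℝ) (K : ℕ) (x : V e) (l : ℕ) (t : ℤ) :
    Measurable (XU B C K x l t : Om e → ℝ≥0∞) := measurable_XD _ _ _ _ _ _

/-- the first good run -/
def WW (a : ℝ) (p : ℕ → V e) (m M : ℕ) : Option (Fin M) → Set (Om e)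
  | none => DN a p m M
  | some i => DN a p m i ∩ Th a (p i) m

/-- the edges of the runs -/
def AA (p : ℕ → V e) (m M : ℕ) : Set (Sym2 (V e)) :=
  ⋃ i ∈ Finset.range M, (ln (p i) m : Set (Sym2 (V e)))

lemma WW_meas_MS (a : ℝ) (p : ℕ → V e) (m M : ℕ) (n : Option (Fin M)) :
    MeasurableSet[MS (AA p m M)] (WW a p m M n : Set (Om e)) := by
  cases n with
  | none => exact DN_meas_MS a p m M
  | some i =>
    refine @MeasurableSet.inter _ (MS _) _ _ ?_ ?_
    · refine MS_mono ?_ _ (DN_meas_MS a p m i)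
      refine Set.biUnion_subset_biUnion_left ?_
      intro k hk
      have h1 := Finset.mem_range.1 hk
      exact Finset.mem_range.2 (h1.trans i.2)
    · refine MS_mono ?_ _ (Th_meas_MS a (p i) m)
      exact Set.subset_iUnion₂ (s := fun i (_ : i ∈ Finset.range M) =>
        (ln (p i) m : Set (Sym2 (V e)))) (i : ℕ) (Finset.mem_range.2 i.2)

lemma WW_disj (a : ℝ) (p : ℕ → V e) (m M : ℕ) :
    Pairwise (Function.onFun Disjoint (WW a p m M : Option (Fin M) → Set (Om e))) := by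
  have key : ∀ i : Fin M, ∀ n : ℕ, (i : ℕ) < n → ∀ ω : Om e, ω ∈ WW a p m M (some i) →
      ω ∉ DN a p m n := by
    intro i n hin ω hω hn
    exact mem_DN.1 hn i hin hω.2
  intro n n' hne
  rw [Function.onFun, Set.disjoint_left]
  intro ω hω hω'
  cases n with
  | none =>
    cases n' with
    | none => exact hne rfl
    | some i => exact key i M i.2 ω hω' hω
  | some i =>
    cases n' with
    | none => exact key i M i.2 ω hω hω'
    | some j =>
      have hij : (i : ℕ) ≠ j := fun h => hne (by rw [Fin.ext h])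
      rcases lt_or_gt_of_ne hij with h | h
      · exact key i j h ω hω hω'.1
      · exact key j i h ω hω' hω.1

lemma WW_cover (a : ℝ) (p : ℕ → V e) (m M : ℕ) :
    ⋃ n, (WW a p m M n : Set (Om e)) = Set.univ := by
  classical
  rw [Set.eq_univ_iff_forall]
  intro ω
  rw [Set.mem_iUnion]
  by_cases h : ∃ i, i < M ∧ ω ∈ Th a (p i) m
  · have h1 := Nat.find_spec h
    refine ⟨some ⟨Nat.find h, h1.1⟩, ?_, h1.2⟩
    rw [mem_DN]
    intro i hi hω
    have h2 : i < Nat.find h := hi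
    exact Nat.find_min h h2 ⟨h2.trans h1.1, hω⟩
  · push Not at h
    exact ⟨none, mem_DN.2 h⟩

/-- the run, in the slab -/
lemma XD_run {a B C : ℝ} (ha : 0 ≤ a) {p : V e} {m : ℕ} {ω : Om e} (h : ω ∈ Th a p m) :
    XD B C ω (p 0) (p 0 + m) p (p + (m : ℤ) • u 0) ≤ ENNReal.ofReal (a * m) := by
  obtain ⟨w, hw, hc⟩ := run_walk ha h
  unfold XD
  refine iInf_le_of_le p (iInf_le_of_le ⟨le_rfl, by omega⟩
    (iInf_le_of_le (p + (m : ℤ) • u 0) (iInf_le_of_le w (iInf_le_of_le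
      (hw.mono (ln_sub_Slab p m)) ?_))))
  rw [sub_self, sub_self, n1_zero]
  simpa using ENNReal.ofReal_le_ofReal hc

lemma n1_run (p : V e) (m : ℕ) : n1 (p + (m : ℤ) • u 0 - p) = m := by
  rw [add_sub_cancel_left]
  unfold n1 u
  rw [Finset.sum_eq_single 0]
  · simp
  · intro j _ hj
    simp [Pi.single_eq_of_ne hj]
  · simp

lemma XD_jump (B C : ℝ) (p : V e) (m : ℕ) (ω : Om e) :
    XD B C ω (p 0) (p 0 + m) p (p + (m : ℤ) • u 0) ≤ ENNReal.ofReal (C * m) := by
  unfold XD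
  refine iInf_le_of_le p (iInf_le_of_le ⟨le_rfl, by omega⟩
    (iInf_le_of_le p (iInf_le_of_le SimpleGraph.Walk.nil (iInf_le_of_le (Uses.nil _ _) ?_))))
  rw [sub_self, n1_zero, cst_nil, n1_sub_comm, n1_run]
  simp

/-- integration of the upper bound -/
lemma xu_int (F : Measure ℝ) [IsProbabilityMeasure F] {B C μ : ℝ} {K l : ℕ} {x : V e} {t : ℤ}
    {W : Set (Om e)} {X' : ℝ≥0∞}
    (h : ∫⁻ ω in W, (XD B C ω (x 0) (x 0 + l + 2 * K + 2) x
      (x + (2 * (K : ℤ) + 2) • u 0 + (l : ℤ) • dir t) - ENNReal.ofReal (μ * l)) ∂(PM e F) ≤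
      PM e F W * X') :
    ∫⁻ ω in W, XU B C K x l t ω ∂(PM e F) ≤ PM e F W * (X' + ENNReal.ofReal (μ * l)) := by
  calc ∫⁻ ω in W, XU B C K x l t ω ∂(PM e F)
      ≤ ∫⁻ ω in W, ((XD B C ω (x 0) (x 0 + l + 2 * K + 2) x
          (x + (2 * (K : ℤ) + 2) • u 0 + (l : ℤ) • dir t) - ENNReal.ofReal (μ * l)) +
          ENNReal.ofReal (μ * l)) ∂(PM e F) := lintegral_mono fun ω => le_tsub_add
    _ = ∫⁻ ω in W, (XD B C ω (x 0) (x 0 + l + 2 * K + 2) x
          (x + (2 * (K : ℤ) + 2) • u 0 + (l : ℤ) • dir t) - ENNReal.ofReal (μ * l)) ∂(PM e F) +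
          ENNReal.ofReal (μ * l) * PM e F W := by
        rw [lintegral_add_right _ measurable_const, setLIntegral_const]
    _ ≤ PM e F W * X' + ENNReal.ofReal (μ * l) * PM e F W := by gcongr
    _ = _ := by ring

end Pool.Agent.J6H70.G
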