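import Pool.Agent.J6H70.G.Start2

/-!
# `S_START`, part 3: the main inequality
-/

set_option autoImplicit false

open MeasureTheory ProbabilityTheory Filter Topology
open scoped ENNReal

namespace Pool.Agent.J6H70.G

open Pool.Agent.J6H99.FPP Pool.Agent.J6H46.G
open Pool.Agent.J6H44.FPP (ln mem_ln ln_sub_Slab ln_disjoint last_ne dir_zero dir_ne)

variable {e : ℕ}

/-- the instance of the composition lemma -/
def C1I (e : ℕ) (B b C : ℝ) : Prop := ∀ (ω : Om e) (A h R : ℤ) (x q : V e), A ≤ h → h ≤ R →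
  q 0 = h → (n1 (q - x) : ℝ) ≤ ((e : ℝ) + 2) * (h - A) →
  XX B ω A R x ≤ XD B C ω A h x q + ENNReal.ofReal C * pen b ω q + XX B ω h R q

lemma tube_step {B b C : ℝ} (hC : C1I e B b C) (ω : Om e) (K : ℕ) (x : V e) (l : ℕ) {t : ℤ}
    (ht : t = 1 ∨ t = -1) {R : ℤ} (hR : (te K x l t) 0 ≤ R) :
    XX B ω (x 0) R x ≤ XU B C K x l t ω + ENNReal.ofReal C * pen b ω (te K x l t) +
      XX B ω ((te K x l t) 0) R (te K x l t) := by
  have h1 := te_zero K x l t
  have h2 := hC ω (x 0) ((te K x l t) 0) R x (te K x l t) (by omega) hR rfl (by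
    have h3 : ((n1 (te K x l t - x) : ℤ) : ℝ) ≤ ((((e : ℤ) + 2) * (l + 2 * K + 2) : ℤ) : ℝ) := by
      exact_mod_cast te_n1 K x l ht
    rw [h1]
    push_cast at h3 ⊢
    linarith)
  have h3 : XU B C K x l t ω = XD B C ω (x 0) ((te K x l t) 0) x (te K x l t) := by
    rw [h1]; rfl
  rw [h3]
  exact h2

lemma run_step {B b C : ℝ} (hC : C1I e B b C) (ω : Om e) (p : V e) (m : ℕ) {R : ℤ}
    (hR : p 0 + m ≤ R) :
    XX B ω (p 0) R p ≤ XD B C ω (p 0) (p 0 + m) p (p + (m : ℤ) • u 0) +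
      ENNReal.ofReal C * pen b ω (p + (m : ℤ) • u 0) +
      XX B ω (p 0 + m) R (p + (m : ℤ) • u 0) := by
  refine hC ω (p 0) (p 0 + m) R p (p + (m : ℤ) • u 0) (by omega) hR ?_ ?_
  · simp [u]
  · rw [n1_run]
    push_cast
    have : (0 : ℝ) ≤ (e : ℝ) * m := by positivity
    linarith [(Nat.cast_nonneg m : (0 : ℝ) ≤ (m : ℝ))]

/-- the first turning point -/
def yy (e K j : ℕ) : V e := te K 0 j 1

/-- the start of the run -/
def pp (e K M j : ℕ) : V e := te K (yy e K j) (M - j) (-1)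

/-- the end of the run -/
def qq (e K M m j : ℕ) : V e := pp e K M j + (m : ℤ) • u 0

lemma yy_zero (K j : ℕ) : (yy e K j) 0 = j + 2 * K + 2 := by
  unfold yy; rw [te_zero]; simp

lemma yy_ne (K j : ℕ) {i : Fin (e + 2)} (hi : i ≠ 0) : (yy e K j) i = j := by
  unfold yy; rw [te_ne _ _ _ _ hi]; simp

lemma pp_zero (K : ℕ) {M j : ℕ} (hj : j ≤ M) : (pp e K M j) 0 = M + 4 * K + 4 := by
  unfold pp; rw [te_zero, yy_zero]; omega

lemma pp_ne (K : ℕ) {M j : ℕ} (hj : j ≤ M) {i : Fin (e + 2)} (hi : i ≠ 0) :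
    (pp e K M j) i = 2 * j - M := by
  unfold pp; rw [te_ne _ _ _ _ hi, yy_ne _ _ hi]; omega

lemma qq_zero (K m : ℕ) {M j : ℕ} (hj : j ≤ M) : (qq e K M m j) 0 = M + 4 * K + 4 + m := by
  unfold qq
  rw [Pi.add_apply, pp_zero K hj]
  simp [u]

/-- the index of the good run -/
def kap {M : ℕ} : Option (Fin M) → ℕ
  | none => 0
  | some i => i

lemma kap_le {M : ℕ} (n : Option (Fin M)) : kap n ≤ M := by
  cases n with
  | none => exact Nat.zero_le _
  | some i => exact i.2.le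

/-- the cost of the run -/
noncomputable def cc (a C : ℝ) (m : ℕ) {M : ℕ} : Option (Fin M) → ℝ≥0∞
  | none => ENNReal.ofReal (C * m)
  | some _ => ENNReal.ofReal (a * m)

/-- the cost of the strategy -/
noncomputable def gg (e : ℕ) (B C b a : ℝ) (K m M : ℕ) (n : Option (Fin M)) (ω : Om e) : ℝ≥0∞ :=
  XU B C K 0 (kap n) 1 ω + XU B C K (yy e K (kap n)) (M - kap n) (-1) ω + cc a C m n +
    ENNReal.ofReal C * (pen b ω (yy e K (kap n)) + pen b ω (pp e K M (kap n)) +
      pen b ω (qq e K M m (kap n)))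

lemma gg_step {B b C a : ℝ} (hC : C1I e B b C) (ha : 0 ≤ a) (K m M : ℕ) (n : Option (Fin M))
    {ω : Om e} (hω : ω ∈ WW a (pp e K M) m M n) {R : ℤ} (hR : (M : ℤ) + 4 * K + 4 + m ≤ R) :
    XX B ω 0 R 0 ≤ gg e B C b a K m M n ω +
      XX B ω ((M : ℤ) + 4 * K + 4 + m) R (qq e K M m (kap n)) := by
  have hk := kap_le n
  have hk' : (kap n : ℤ) ≤ M := by exact_mod_cast hk
  have hp0 := pp_zero (e := e) K hk
  have h1 := tube_step hC ω K (0 : V e) (kap n) (t := 1) (Or.inl rfl) (R := R) (by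
    have := yy_zero (e := e) K (kap n)
    unfold yy at this
    rw [this]; omega)
  have h2 := tube_step hC ω K (yy e K (kap n)) (M - kap n) (t := -1) (Or.inr rfl) (R := R) (by
    have := hp0
    unfold pp at this
    rw [this]; omega)
  have h3 := run_step hC ω (pp e K M (kap n)) m (R := R) (by rw [hp0]; exact hR)
  have h4 : XD B C ω ((pp e K M (kap n)) 0) ((pp e K M (kap n)) 0 + m) (pp e K M (kap n))
      (pp e K M (kap n) + (m : ℤ) • u 0) ≤ cc a C m n := by
    cases n with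
    | none => exact XD_jump B C _ m ω
    | some i => exact XD_run ha hω.2
  rw [show (te K (0 : V e) (kap n) 1) = yy e K (kap n) from rfl, Pi.zero_apply] at h1
  rw [show (te K (yy e K (kap n)) (M - kap n) (-1)) = pp e K M (kap n) from rfl] at h2
  rw [show pp e K M (kap n) + (m : ℤ) • u 0 = qq e K M m (kap n) from rfl] at h3 h4
  have h5 : XX B ω ((pp e K M (kap n)) 0 + m) R (qq e K M m (kap n)) =
      XX B ω ((M : ℤ) + 4 * K + 4 + m) R (qq e K M m (kap n)) := by rw [hp0]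
  rw [h5] at h3
  unfold gg
  calc XX B ω 0 R 0 ≤ XU B C K 0 (kap n) 1 ω + ENNReal.ofReal C * pen b ω (yy e K (kap n)) +
        XX B ω ((yy e K (kap n)) 0) R (yy e K (kap n)) := h1
    _ ≤ XU B C K 0 (kap n) 1 ω + ENNReal.ofReal C * pen b ω (yy e K (kap n)) +
        (XU B C K (yy e K (kap n)) (M - kap n) (-1) ω +
          ENNReal.ofReal C * pen b ω (pp e K M (kap n)) +
          (XD B C ω ((pp e K M (kap n)) 0) ((pp e K M (kap n)) 0 + m) (pp e K M (kap n))
            (qq e K M m (kap n)) + ENNReal.ofReal C * pen b ω (qq e K M m (kap n)) +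
            XX B ω ((M : ℤ) + 4 * K + 4 + m) R (qq e K M m (kap n)))) := by
        gcongr
        exact h2.trans (by gcongr)
    _ ≤ XU B C K 0 (kap n) 1 ω + ENNReal.ofReal C * pen b ω (yy e K (kap n)) +
        (XU B C K (yy e K (kap n)) (M - kap n) (-1) ω +
          ENNReal.ofReal C * pen b ω (pp e K M (kap n)) +
          (cc a C m n + ENNReal.ofReal C * pen b ω (qq e K M m (kap n)) +
            XX B ω ((M : ℤ) + 4 * K + 4 + m) R (qq e K M m (kap n)))) := by
        gcongr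
    _ = _ := by ring

lemma AA_zero (K m M : ℕ) : ∀ s ∈ AA (pp e K M) m M,
    (∀ v ∈ s, (M : ℤ) + 4 * K + 4 ≤ v 0) ∧ ∃ v ∈ s, v 0 < (M : ℤ) + 4 * K + 4 + m := by
  intro s hs
  unfold AA at hs
  rw [Set.mem_iUnion₂] at hs
  obtain ⟨i, hi, hs⟩ := hs
  have h1 := ln_sub_Slab (pp e K M i) m hs
  have h2 := pp_zero (e := e) K (Finset.mem_range.1 hi).le
  rw [h2] at h1
  exact h1

end Pool.Agent.J6H70.G
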