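import Pool.Agent.J6H70.G.Start3

/-!
# `S_START`, part 4: the main inequality
-/

set_option autoImplicit false

open MeasureTheory ProbabilityTheory Filter Topology
open scoped ENNReal

namespace Pool.Agent.J6H70.G

open Pool.Agent.J6H99.FPP Pool.Agent.J6H46.G
open Pool.Agent.J6H44.FPP (ln mem_ln ln_sub_Slab ln_disjoint last_ne dir_zero dir_ne)

variable {e : ℕ}

lemma measurable_gg (hPEN0 : S_PEN0) (B C b a : ℝ) (K m M : ℕ) (n : Option (Fin M)) :
    Measurable (gg e B C b a K m M n) := by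
  unfold gg
  have h1 := fun x : V e => (hPEN0 e b x).1
  exact (((measurable_XU _ _ _ _ _ _).add (measurable_XU _ _ _ _ _ _)).add measurable_const).add
    ((((h1 _).add (h1 _)).add (h1 _)).const_mul _)

/-- the event on which the penalties are integrated -/
def TT' (e : ℕ) (a : ℝ) (K m M : ℕ) : Option (Fin M) → Set (Om e)
  | none => Set.univ
  | some i => Th a (pp e K M i) m

lemma WW_sub_TT' (a : ℝ) (K m M : ℕ) (n : Option (Fin M)) :
    WW a (pp e K M) m M n ⊆ TT' e a K m M n := by
  cases n with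
  | none => exact Set.subset_univ _
  | some i => exact Set.inter_subset_right

lemma pen_int (hPEN1 : S_PEN1) (hDOM : S_DOM) (F : Measure ℝ) [IsProbabilityMeasure F] {b a : ℝ}
    (hb : F (Set.Ioi b) ≤ q0 e) (hab : a ≤ b) (K m M : ℕ) (n : Option (Fin M)) (x : V e) :
    ∫⁻ ω in WW a (pp e K M) m M n, pen b ω x ∂(PM e F) ≤ 8 * PM e F (TT' e a K m M n) := by
  refine (lintegral_mono_set (WW_sub_TT' a K m M n)).trans ?_
  cases n with
  | none =>
    refine hPEN1 e F b _ MeasurableSet.univ ?_ x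
    have h1 := hDOM e F b a ∅ hb hab
    simpa using h1
  | some i =>
    exact hPEN1 e F b _ (MS_le _ _ (Th_meas_MS a _ m)) (hDOM e F b a (ln (pp e K M i) m) hb hab) x

/-- the probability of the event on which the penalties are integrated -/
noncomputable def tp (F : Measure ℝ) (a : ℝ) (m : ℕ) {M : ℕ} : Option (Fin M) → ℝ≥0∞
  | none => 1
  | some _ => F (Set.Iic a) ^ m

lemma TT'_prob (F : Measure ℝ) [IsProbabilityMeasure F] (a : ℝ) (K m M : ℕ)
    (n : Option (Fin M)) : PM e F (TT' e a K m M n) = tp F a m n := by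
  cases n with
  | none => exact measure_univ
  | some i => exact Th_prob F a _ m

lemma gg_int (hPEN0 : S_PEN0) (hPEN1 : S_PEN1) (hDOM : S_DOM) (F : Measure ℝ)
    [IsProbabilityMeasure F] {B C b a μ : ℝ} (hb : F (Set.Ioi b) ≤ q0 e) (hab : a ≤ b)
    {K m M : ℕ} {X' : ℝ≥0∞}
    (hU : ∀ (l : ℕ), l ≤ M → ∀ (t : ℤ), (t = 1 ∨ t = -1) →
      ∀ (x : V e) (A : Set (Sym2 (V e))) (W : Set (Om e)), MeasurableSet[MS A] W →
      (∀ s ∈ A, ∀ v ∈ s, x 0 + l + 2 * K + 2 ≤ v 0) →
      ∫⁻ ω in W, (XD B C ω (x 0) (x 0 + l + 2 * K + 2) x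
        (x + (2 * (K : ℤ) + 2) • u 0 + (l : ℤ) • dir t) - ENNReal.ofReal (μ * l)) ∂(PM e F) ≤
        PM e F W * X') (hμ : 0 ≤ μ) (n : Option (Fin M)) :
    ∫⁻ ω in WW a (pp e K M) m M n, gg e B C b a K m M n ω ∂(PM e F) ≤
      PM e F (WW a (pp e K M) m M n) * (2 * X' + ENNReal.ofReal (μ * M)) +
      PM e F (WW a (pp e K M) m M n) * cc a C m n +
      ENNReal.ofReal C * (24 * tp F a m n) := by
  have hk := kap_le n
  have hk' : (kap n : ℤ) ≤ M := by exact_mod_cast hk
  have hA := AA_zero (e := e) K m M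
  have hy := yy_zero (e := e) K (kap n)
  have h1 := xu_int F (K := K) (x := (0 : V e)) (l := kap n) (t := 1) (hU (kap n) hk 1 (Or.inl rfl) 0
    (AA (pp e K M) m M) _ (WW_meas_MS a (pp e K M) m M n) (by
      intro s hs v hv
      have := (hA s hs).1 v hv
      rw [Pi.zero_apply]
      omega))
  have h2 := xu_int F (K := K) (x := yy e K (kap n)) (l := M - kap n) (t := -1)
    (hU (M - kap n) (Nat.sub_le _ _) (-1) (Or.inr rfl) _
    (AA (pp e K M) m M) _ (WW_meas_MS a (pp e K M) m M n) (by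
      intro s hs v hv
      have := (hA s hs).1 v hv
      rw [hy]
      omega))
  have h3 := fun x : V e => (pen_int hPEN1 hDOM F hb hab K m M n x).trans_eq
    (by rw [TT'_prob])
  have hm := fun x : V e => (hPEN0 e b x).1
  have hsum : ENNReal.ofReal (μ * (kap n : ℕ)) + ENNReal.ofReal (μ * ((M - kap n : ℕ) : ℝ)) =
      ENNReal.ofReal (μ * M) := by
    rw [← ENNReal.ofReal_add (by positivity) (by positivity), ← mul_add]
    congr 2
    exact_mod_cast Nat.add_sub_of_le hk
  set P := PM e F (WW a (pp e K M) m M n) with hP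
  unfold gg
  have hm1 : Measurable fun ω : Om e => XU B C K 0 (kap n) 1 ω +
      XU B C K (yy e K (kap n)) (M - kap n) (-1) ω :=
    (measurable_XU _ _ _ _ _ _).add (measurable_XU _ _ _ _ _ _)
  have hm2 : Measurable fun ω : Om e => XU B C K 0 (kap n) 1 ω +
      XU B C K (yy e K (kap n)) (M - kap n) (-1) ω + cc a C m n := hm1.add measurable_const
  have hm3 : Measurable fun ω : Om e => pen b ω (yy e K (kap n)) + pen b ω (pp e K M (kap n)) :=
    (hm _).add (hm _)
  have hm4 : Measurable fun ω : Om e => pen b ω (yy e K (kap n)) + pen b ω (pp e K M (kap n)) +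
      pen b ω (qq e K M m (kap n)) := hm3.add (hm _)
  rw [lintegral_add_left hm2, lintegral_add_left hm1, lintegral_add_left (measurable_XU _ _ _ _ _ _),
    lintegral_const_mul _ hm4, lintegral_add_left hm3, lintegral_add_left (hm _),
    setLIntegral_const]
  calc _ ≤ P * (X' + ENNReal.ofReal (μ * (kap n : ℕ))) +
        P * (X' + ENNReal.ofReal (μ * ((M - kap n : ℕ) : ℝ))) + cc a C m n * P +
        ENNReal.ofReal C * (8 * tp F a m n + 8 * tp F a m n + 8 * tp F a m n) := by
        gcongr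
        · exact h3 _
        · exact h3 _
        · exact h3 _
    _ = P * (2 * X' + (ENNReal.ofReal (μ * (kap n : ℕ)) +
        ENNReal.ofReal (μ * ((M - kap n : ℕ) : ℝ)))) + P * cc a C m n +
        ENNReal.ofReal C * (24 * tp F a m n) := by ring
    _ = _ := by rw [hsum]

end Pool.Agent.J6H70.G
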