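import Pool.Agent.J6H70.G.Start4

/-!
# `S_START`, part 5: the main inequality
-/

set_option autoImplicit false

open MeasureTheory ProbabilityTheory Filter Topology
open scoped ENNReal

namespace Pool.Agent.J6H70.G

open Pool.Agent.J6H99.FPP Pool.Agent.J6H46.G
open Pool.Agent.J6H44.FPP (ln mem_ln ln_sub_Slab ln_disjoint last_ne dir_zero dir_ne)

variable {e : ℕ}

lemma WW_meas (a : ℝ) (p : ℕ → V e) (m M : ℕ) (n : Option (Fin M)) :
    MeasurableSet (WW a p m M n : Set (Om e)) := MS_le _ _ (WW_meas_MS a p m M n)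

lemma WW_sum (F : Measure ℝ) [IsProbabilityMeasure F] (a : ℝ) (p : ℕ → V e) (m M : ℕ) :
    ∑ n, PM e F (WW a p m M n) = 1 := by
  have h := measure_iUnion (μ := PM e F) (WW_disj a p m M) (WW_meas a p m M)
  rw [WW_cover, measure_univ, tsum_fintype] at h
  exact h.symm

/-- the cost of the strategy -/
noncomputable def ff (e : ℕ) (B C b a : ℝ) (K m M : ℕ) (ω : Om e) : ℝ≥0∞ :=
  ∑ n : Option (Fin M), (WW a (pp e K M) m M n).indicator (gg e B C b a K m M n) ω

lemma measurable_ff (hPEN0 : S_PEN0) (B C b a : ℝ) (K m M : ℕ) :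
    Measurable (ff e B C b a K m M) := by
  unfold ff
  exact Finset.measurable_fun_sum _ fun n _ =>
    (measurable_gg hPEN0 B C b a K m M n).indicator (WW_meas a _ m M n)

lemma gg_le_ff (B C b a : ℝ) (K m M : ℕ) (n : Option (Fin M)) {ω : Om e}
    (hω : ω ∈ WW a (pp e K M) m M n) : gg e B C b a K m M n ω ≤ ff e B C b a K m M ω := by
  unfold ff
  calc gg e B C b a K m M n ω
      = (WW a (pp e K M) m M n).indicator (gg e B C b a K m M n) ω := by
        rw [Set.indicator_of_mem hω]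
    _ ≤ _ := Finset.single_le_sum
        (f := fun n => (WW a (pp e K M) m M n).indicator (gg e B C b a K m M n) ω)
        (fun _ _ => zero_le) (Finset.mem_univ n)

lemma ff_int (hPEN0 : S_PEN0) (F : Measure ℝ) [IsProbabilityMeasure F] (B C b a : ℝ)
    (K m M : ℕ) : ∫⁻ ω, ff e B C b a K m M ω ∂(PM e F) =
      ∑ n : Option (Fin M), ∫⁻ ω in WW a (pp e K M) m M n, gg e B C b a K m M n ω ∂(PM e F) := by
  unfold ff
  rw [lintegral_finsetSum _ fun n _ =>
    (measurable_gg hPEN0 B C b a K m M n).indicator (WW_meas a _ m M n)]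
  refine Finset.sum_congr rfl fun n _ => ?_
  rw [lintegral_indicator (WW_meas a _ m M n)]

lemma cc_sum (F : Measure ℝ) [IsProbabilityMeasure F] (a C : ℝ) (K m M : ℕ) :
    ∑ n : Option (Fin M), PM e F (WW a (pp e K M) m M n) * cc a C m n ≤
      (1 - F (Set.Iic a) ^ m) ^ M * ENNReal.ofReal (C * m) + ENNReal.ofReal (a * m) := by
  have h1 := WW_sum F a (pp e K M) m M
  rw [Fintype.sum_option] at h1
  rw [Fintype.sum_option]
  refine add_le_add ?_ ?_
  · show PM e F (DN a (pp e K M) m M) * ENNReal.ofReal (C * m) ≤ _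
    gcongr
    refine DN_prob F a (pp e K M) m (Fin.last _) (last_ne (e := e)) M ?_ M le_rfl
    intro i j hij hj
    rw [pp_ne K (by omega) last_ne, pp_ne K (by omega) last_ne]
    omega
  · show ∑ i : Fin M, PM e F (WW a (pp e K M) m M (some i)) * ENNReal.ofReal (a * m) ≤ _
    rw [← Finset.sum_mul]
    calc _ ≤ 1 * ENNReal.ofReal (a * m) := by
          gcongr
          rw [← h1]
          exact le_add_self
      _ = _ := one_mul _

lemma tp_sum (F : Measure ℝ) (a : ℝ) (m M : ℕ) :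
    ∑ n : Option (Fin M), tp F a m n = 1 + M * F (Set.Iic a) ^ m := by
  rw [Fintype.sum_option]
  unfold tp
  simp

/-- the main inequality -/
lemma main_enn (hPEN0 : S_PEN0) (hPEN1 : S_PEN1) (hDOM : S_DOM) (hFLAT : S_FLAT) (F : Measure ℝ)
    [IsProbabilityMeasure F] {B C b a μ : ℝ} (hb : F (Set.Ioi b) ≤ q0 e) (hab : a ≤ b)
    (ha : 0 ≤ a) (hC : C1I e B b C) (hL : LBD e F μ B)
    {K m M : ℕ} {X' : ℝ≥0∞}
    (hU : ∀ (l : ℕ), l ≤ M → ∀ (t : ℤ), (t = 1 ∨ t = -1) →
      ∀ (x : V e) (A : Set (Sym2 (V e))) (W : Set (Om e)), MeasurableSet[MS A] W →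
      (∀ s ∈ A, ∀ v ∈ s, x 0 + l + 2 * K + 2 ≤ v 0) →
      ∫⁻ ω in W, (XD B C ω (x 0) (x 0 + l + 2 * K + 2) x
        (x + (2 * (K : ℤ) + 2) • u 0 + (l : ℤ) • dir t) - ENNReal.ofReal (μ * l)) ∂(PM e F) ≤
        PM e F W * X') (hμ : 0 < μ) (hμB : μ ≤ B) :
    ENNReal.ofReal μ * ((M + 4 * K + 4 + m : ℕ) : ℝ≥0∞) ≤ 2 * X' + ENNReal.ofReal (μ * M) +
      ((1 - F (Set.Iic a) ^ m) ^ M * ENNReal.ofReal (C * m) + ENNReal.ofReal (a * m)) +
      ENNReal.ofReal C * (24 * (1 + M * F (Set.Iic a) ^ m)) := by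
  have hA := AA_zero (e := e) K m M
  have h1 := hFLAT e F μ B hμ hμB hL (Option (Fin M)) (WW a (pp e K M) m M)
    (fun _ => M + 4 * K + 4 + m) (fun n => qq e K M m (kap n)) (fun _ => AA (pp e K M) m M)
    (M + 4 * K + 4 + m) (ff e B C b a K m M) (fun _ => le_rfl)
    (fun n => by rw [qq_zero K m (kap_le n)]; push_cast; rfl)
    (fun n s hs => by
      obtain ⟨v, hv, hv'⟩ := (hA s hs).2
      exact ⟨v, hv, by push_cast; exact hv'⟩)
    (fun n => WW_meas_MS a _ m M n) (WW_disj a _ m M) (WW_cover a _ m M)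
    (measurable_ff hPEN0 B C b a K m M)
    (fun n R hR ω hω => by
      have hR' : (M : ℤ) + 4 * K + 4 + m ≤ R := by exact_mod_cast hR
      have h2 := gg_step hC ha K m M n hω hR'
      have h3 := gg_le_ff B C b a K m M n hω
      push_cast
      exact h2.trans (by gcongr))
  rw [ENNReal.tsum_mul_right, tsum_fintype, WW_sum, one_mul] at h1
  refine h1.trans ?_
  rw [ff_int hPEN0]
  calc _ ≤ ∑ n : Option (Fin M), (PM e F (WW a (pp e K M) m M n) *
        (2 * X' + ENNReal.ofReal (μ * M)) + PM e F (WW a (pp e K M) m M n) * cc a C m n +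
        ENNReal.ofReal C * (24 * tp F a m n)) :=
        Finset.sum_le_sum fun n _ => gg_int hPEN0 hPEN1 hDOM F hb hab hU hμ.le n
    _ = (2 * X' + ENNReal.ofReal (μ * M)) +
        ∑ n : Option (Fin M), PM e F (WW a (pp e K M) m M n) * cc a C m n +
        ENNReal.ofReal C * (24 * (1 + M * F (Set.Iic a) ^ m)) := by
        rw [Finset.sum_add_distrib, Finset.sum_add_distrib, ← Finset.sum_mul, WW_sum, one_mul,
          ← Finset.mul_sum, ← Finset.mul_sum, tp_sum]
    _ ≤ _ := by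
        gcongr
        exact cc_sum F a C K m M

end Pool.Agent.J6H70.G
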